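import Pool.Agent.Q290.AH.Perc

/-!
# MP_4ab6d1_pr, Q1: the answer is no

There is an infinite, connected, locally finite, Gromov hyperbolic graph `G` with `p_c(G) = 0` such
that for every `p` in `(0, 1)` a free FK-Ising measure exists and, for every free FK-Ising measure
(weak limit along any exhaustion), almost surely there is an infinite cluster and no infinite
cluster is anchored Gromov hyperbolic.

The graph is a chain of cut vertices `c 0, c 1, …`; at level `n` there are `(n+1)^(n+1)` wheels
whose rim is a cycle of length `4(n+1)` through `c n` and whose hub is also joined to `c (n+1)`.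
By finite energy infinitely many wheels have exactly their rim open, and such a rim is a geodesic
cycle hanging at a cut vertex of the cluster.
-/

open MeasureTheory

namespace Pool.Agent.Results.MP_4ab6d1_pr.ChainOfWheels

open Pool.Agent.Q290.AH

/-- The question Q1. -/
def Q1 : Prop :=
  ∀ (V : Type) (G : SimpleGraph V), Countable V → Infinite V → G.Connected →
    (∀ v, (G.neighborSet v).Finite) → GromovHyperbolic G →
    ∀ p : ℝ, criticalP G < p → p ≤ 1 → ∀ μ : Measure (Conf G), IsFreeFKIsing G p μ →
      ∀ᵐ ω ∂μ, ∀ C : (openGraph G ω).ConnectedComponent, C.supp.Infinite →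
        AnchoredHyperbolic C.toSimpleGraph

theorem result : ¬ Q1 ∧
    ∃ (V : Type) (G : SimpleGraph V), Countable V ∧ Infinite V ∧ G.Connected ∧
      (∀ v, (G.neighborSet v).Finite) ∧ GromovHyperbolic G ∧ criticalP G = 0 ∧
      ∀ p : ℝ, 0 < p → p < 1 →
        (∃ μ : Measure (Conf G), IsFreeFKIsing G p μ) ∧
        ∀ μ : Measure (Conf G), IsFreeFKIsing G p μ →
          ∀ᵐ ω ∂μ, HasInfiniteCluster G ω ∧
            ∀ C : (openGraph G ω).ConnectedComponent, C.supp.Infinite →
              ¬ AnchoredHyperbolic C.toSimpleGraph := by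
  refine ⟨fun hQ => ?_, Vx, GG, inferInstance, infinite_Vx, GG_connected, locFin, GG_hyp,
    crit_zero, fun p hp0 hp1 => ⟨exists_free hp0 hp1, fun μ hμ => main_ae hp0 hp1 hμ⟩⟩
  obtain ⟨μ, hμ⟩ := exists_free (G := GG) (p := 1 / 2) (by norm_num) (by norm_num)
  have hP : IsProbabilityMeasure μ := hμ.1
  have h1 := hQ Vx GG inferInstance infinite_Vx GG_connected locFin GG_hyp (1 / 2)
    (by rw [crit_zero]; norm_num) (by norm_num) μ hμ
  have h2 := main_ae (p := 1 / 2) (by norm_num) (by norm_num) hμ
  obtain ⟨ω, h3, h4, h5⟩ := (h1.and h2).exists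
  obtain ⟨C, hC⟩ := h4
  exact h5 C hC (h3 C hC)

end Pool.Agent.Results.MP_4ab6d1_pr.ChainOfWheels
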